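import Mathlib
import Pool.Agent.W98.RB.Defs

/-!
# Weak derivatives of `C¹` functions (RB-ID)
-/

set_option autoImplicit false

open MeasureTheory Set Filter Topology
open scoped ENNReal NNReal
open Pool.Agent.W98.RB

namespace Pool.Agent.W571.RB

lemma continuous_mul_of {Ω : Set (ℝ × ℝ)} (hΩ : IsOpen Ω) {f η : ℝ × ℝ → ℝ}
    (hf : ContinuousOn f Ω) (hη : Continuous η) (hs : tsupport η ⊆ Ω) :
    Continuous fun x => f x * η x := by
  refine continuous_of_tsupport fun x hx => ?_
  have hx' : x ∈ Ω := hs ((tsupport_mul_subset_right (f := f) (g := η)) hx)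
  exact (hf.continuousAt (hΩ.mem_nhds hx')).mul hη.continuousAt

lemma integrable_mul_of {Ω : Set (ℝ × ℝ)} (hΩ : IsOpen Ω) {f η : ℝ × ℝ → ℝ}
    (hf : ContinuousOn f Ω) (hη : Continuous η) (hc : HasCompactSupport η) (hs : tsupport η ⊆ Ω) :
    Integrable fun x => f x * η x :=
  (continuous_mul_of hΩ hf hη hs).integrable_of_hasCompactSupport hc.mul_left

/-- the statement for one direction -/
theorem id_dir {Ω : Set (ℝ × ℝ)} (hΩ : IsOpen Ω) {U G : ℝ × ℝ → ℝ} (hU : ContDiffOn ℝ 1 U Ω)
    (hG : ∀ R : ℝ, IntegrableOn G (Ω ∩ Metric.ball 0 R)) (e : ℝ × ℝ)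
    (h : ∀ η : ℝ × ℝ → ℝ, ContDiff ℝ (⊤ : ℕ∞) η → HasCompactSupport η → tsupport η ⊆ Ω →
      ∫ p in Ω, U p * fderiv ℝ η p e = -∫ p in Ω, G p * η p) :
    ∀ᵐ p ∂(volume.restrict Ω), fderiv ℝ U p e = G p := by
  have hUc : ContinuousOn U Ω := hU.continuousOn
  have hDc : ContinuousOn (fun p => fderiv ℝ U p e) Ω :=
    (hU.continuousOn_fderiv_of_isOpen hΩ le_rfl).clm_apply continuousOn_const
  have hUd : ∀ x ∈ Ω, DifferentiableAt ℝ U x := fun x hx =>
    (hU.differentiableOn (by norm_num)).differentiableAt (hΩ.mem_nhds hx)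
  have hGl : LocallyIntegrableOn G Ω := by
    intro x hx
    refine ⟨Ω ∩ Metric.ball 0 (‖x‖ + 1), ?_, hG _⟩
    refine inter_mem_nhdsWithin _ (Metric.isOpen_ball.mem_nhds ?_)
    rw [mem_ball_zero_iff]
    linarith
  have hl : LocallyIntegrableOn (fun p => fderiv ℝ U p e - G p) Ω :=
    (hDc.locallyIntegrableOn hΩ.measurableSet).sub hGl
  have key := hΩ.ae_eq_zero_of_integral_contDiff_smul_eq_zero hl (fun η hη hc hs => by
    have hη1 : ContDiff ℝ 1 η := hη.of_le (by exact_mod_cast le_top)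
    have hηc : Continuous η := hη.continuous
    have hηd : Differentiable ℝ η := hη1.differentiable (by norm_num)
    have hDη : Continuous fun p => fderiv ℝ η p e :=
      (hη1.continuous_fderiv (by norm_num)).clm_apply continuous_const
    have hDηc : HasCompactSupport fun p => fderiv ℝ η p e := hc.fderiv_apply ℝ e
    have hDηs : tsupport (fun p => fderiv ℝ η p e) ⊆ Ω :=
      (tsupport_fderiv_apply_subset ℝ e).trans hs
    have i1 := integrable_mul_of hΩ hDc hηc hc hs
    have i2 := integrable_mul_of hΩ hUc hDη hDηc hDηs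
    have i3 := integrable_mul_of hΩ hUc hηc hc hs
    have hparts := integral_mul_fderiv_eq_neg_fderiv_mul_of_integrable (μ := volume) (f := U)
      (g := η) (v := e) i1 i2 i3 (fun x hx => hUd x (hs hx)) (fun x _ => hηd x)
    have r1 : ∫ p in Ω, U p * fderiv ℝ η p e = ∫ p, U p * fderiv ℝ η p e :=
      setIntegral_eq_integral_of_forall_compl_eq_zero fun x hx => by
        rw [image_eq_zero_of_notMem_tsupport (f := fun p => fderiv ℝ η p e)
          (fun hx' => hx (hDηs hx')), mul_zero]
    have r2 : ∫ p in Ω, G p * η p = ∫ p, G p * η p :=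
      setIntegral_eq_integral_of_forall_compl_eq_zero fun x hx => by
        rw [image_eq_zero_of_notMem_tsupport (fun hx' => hx (hs hx')), mul_zero]
    have h1 := h η hη hc hs
    rw [r1, r2, hparts] at h1
    -- integrability of `G * η`
    obtain ⟨R, hR⟩ := hc.isCompact.isBounded.subset_ball (0 : ℝ × ℝ)
    obtain ⟨Cb, hCb⟩ := hηc.bounded_above_of_compact_support hc
    have i4 : Integrable fun p => G p * η p := by
      have j1 : IntegrableOn (fun p => G p * η p) (Ω ∩ Metric.ball 0 R) :=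
        (hG R).mul_bdd hηc.aestronglyMeasurable (Eventually.of_forall hCb)
      rw [← integrableOn_univ]
      refine j1.of_forall_sdiff_eq_zero MeasurableSet.univ fun x hx => ?_
      rw [image_eq_zero_of_notMem_tsupport (fun hx' => hx.2 ⟨hs hx', hR hx'⟩), mul_zero]
    have e1 : ∫ x, η x • (fderiv ℝ U x e - G x) =
        (∫ x, fderiv ℝ U x e * η x) - ∫ x, G x * η x := by
      rw [← integral_sub i1 i4]
      refine integral_congr_ae (Eventually.of_forall fun x => ?_)
      simp only [smul_eq_mul]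
      ring
    rw [e1]
    linarith)
  rw [ae_restrict_iff' hΩ.measurableSet]
  filter_upwards [key] with p hp hpΩ
  exact sub_eq_zero.1 (hp hpΩ)

/-- RB-ID -/
theorem T_ID : S_ID := by
  intro Ω hΩ U G hU _ hG
  exact ⟨fun h => id_dir hΩ hU hG (1, 0) h, fun h => id_dir hΩ hU hG (0, 1) h⟩

end Pool.Agent.W571.RB
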