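import Pool.Agent.W98.RB.Defs

/-!
# Interior gradient estimate (`S_GR`)
-/

set_option autoImplicit false

open MeasureTheory Set Filter Topology

namespace Pool.Agent.W571.RB

open Pool.Agent.W98.RB

/-- second derivative test at a maximum -/
lemma second_deriv_nonpos {f f' : ℝ → ℝ} {s a : ℝ} (hf : ∀ t, HasDerivAt f (f' t) t)
    (hf' : HasDerivAt f' s a) (hmax : IsLocalMax f a) : s ≤ 0 := by
  by_contra hs
  push Not at hs
  have hd : deriv f = f' := funext fun t => (hf t).deriv
  have h2 : deriv (deriv f) a = s := by rw [hd]; exact hf'.deriv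
  have h0 : deriv f a = 0 := hmax.deriv_eq_zero
  have hmin : IsLocalMin f a := isLocalMin_of_deriv_deriv_pos (by rw [h2]; exact hs) h0
    (hf a).continuousAt
  have hconst : f =ᶠ[𝓝 a] fun _ => f a := by
    filter_upwards [hmin, hmax] with t h3 h4
    exact le_antisymm h4 h3
  have h5 : deriv f =ᶠ[𝓝 a] fun _ => 0 := by
    have := hconst.deriv
    simpa using this
  have h6 : deriv (deriv f) a = 0 := by
    rw [h5.deriv_eq]; simp
  rw [h6] at h2
  exact hs.ne h2

/-- one-sided estimate in terms of partial derivatives -/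
theorem core (w w1 w2 w11 w22 : ℝ → ℝ → ℝ) (hc : Continuous (fun p : ℝ × ℝ => w p.1 p.2))
    (h1 : ∀ x y, HasDerivAt (fun t => w t y) (w1 x y) x)
    (h11 : ∀ x y, HasDerivAt (fun t => w1 t y) (w11 x y) x)
    (h2 : ∀ x y, HasDerivAt (fun t => w x t) (w2 x y) y)
    (h22 : ∀ x y, HasDerivAt (fun t => w2 x t) (w22 x y) y)
    (x₀ y₀ R M F : ℝ) (hR : 0 < R)
    (hb : ∀ x y, |x - x₀| ≤ R → |y - y₀| ≤ R → |w x y| ≤ M ∧ |w11 x y + w22 x y| ≤ F) :
    w2 x₀ y₀ ≤ 2 * M / R + F * R / 2 := by
  have hM : 0 ≤ M := (abs_nonneg _).trans (hb x₀ y₀ (by simpa using hR.le) (by simpa using hR.le)).1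
  have hF : 0 ≤ F := (abs_nonneg _).trans (hb x₀ y₀ (by simpa using hR.le) (by simpa using hR.le)).2
  -- comparison
  have key : ∀ η : ℝ, 0 < η → ∀ y : ℝ, 0 ≤ y → y ≤ R →
      (w x₀ (y₀ + y) - w x₀ (y₀ - y)) / 2 ≤
        M / R ^ 2 * (y * (2 * R - y)) + (F + η) / 2 * (y * (R - y)) := by
    intro η hη
    set D : ℝ × ℝ → ℝ := fun p => (w (x₀ + p.1) (y₀ + p.2) - w (x₀ + p.1) (y₀ - p.2)) / 2 -
      (M / R ^ 2 * (p.1 ^ 2 + p.2 * (2 * R - p.2)) + (F + η) / 2 * (p.2 * (R - p.2))) with hD
    have hDc : Continuous D := by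
      have e1 : Continuous fun p : ℝ × ℝ => w (x₀ + p.1) (y₀ + p.2) :=
        hc.comp (f := fun p : ℝ × ℝ => (x₀ + p.1, y₀ + p.2)) (by fun_prop)
      have e2 : Continuous fun p : ℝ × ℝ => w (x₀ + p.1) (y₀ - p.2) :=
        hc.comp (f := fun p : ℝ × ℝ => (x₀ + p.1, y₀ - p.2)) (by fun_prop)
      exact ((e1.sub e2).div_const 2).sub (by fun_prop)
    obtain ⟨⟨a, b⟩, hab, hmax⟩ := (isCompact_Icc.prod isCompact_Icc).exists_isMaxOn
      (s := Icc (-R) R ×ˢ Icc (0:ℝ) R) ⟨(0, 0), by simp [hR.le]⟩ hDc.continuousOn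
    simp only [mem_prod, mem_Icc] at hab
    obtain ⟨⟨ha1, ha2⟩, hb1, hb2⟩ := hab
    have hM2 : 0 ≤ M / R ^ 2 := by positivity
    have hval : D (a, b) ≤ 0 := by
      by_contra hpos
      push Not at hpos
      have hDab : D (a, b) = (w (x₀ + a) (y₀ + b) - w (x₀ + a) (y₀ - b)) / 2 -
        (M / R ^ 2 * (a ^ 2 + b * (2 * R - b)) + (F + η) / 2 * (b * (R - b))) := rfl
      have hP := (hb (x₀ + a) (y₀ + b) (by rw [add_sub_cancel_left, abs_le]; exact ⟨ha1, ha2⟩)
        (by rw [add_sub_cancel_left, abs_of_nonneg hb1]; exact hb2))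
      have hN := (hb (x₀ + a) (y₀ - b) (by rw [add_sub_cancel_left, abs_le]; exact ⟨ha1, ha2⟩)
        (by rw [sub_sub_cancel_left, abs_neg, abs_of_nonneg hb1]; exact hb2))
      have hphi : (w (x₀ + a) (y₀ + b) - w (x₀ + a) (y₀ - b)) / 2 ≤ M := by
        have := (abs_le.1 hP.1).2
        have := (abs_le.1 hN.1).1
        linarith
      have hMR : M / R ^ 2 * R ^ 2 = M := by field_simp
      have t1 : 0 ≤ b * (2 * R - b) := mul_nonneg hb1 (by linarith)
      have t2 : 0 ≤ b * (R - b) := mul_nonneg hb1 (by linarith)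
      have t3 : 0 ≤ (F + η) / 2 * (b * (R - b)) := mul_nonneg (by linarith) t2
      have hb0 : 0 < b := by
        rcases hb1.eq_or_lt with h | h
        · exfalso
          rw [hDab, ← h] at hpos
          simp only [add_zero, sub_zero, sub_self, zero_div, zero_mul, mul_zero, zero_sub] at hpos
          have : 0 ≤ M / R ^ 2 * a ^ 2 := by positivity
          linarith
        · exact h
      have hbR : b < R := by
        rcases hb2.eq_or_lt with h | h
        · exfalso
          have : M ≤ M / R ^ 2 * (a ^ 2 + b * (2 * R - b)) := by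
            rw [← hMR]
            have e : M / R ^ 2 * R ^ 2 / R ^ 2 = M / R ^ 2 := by field_simp
            rw [e]
            refine mul_le_mul_of_nonneg_left ?_ hM2
            rw [h]
            nlinarith [sq_nonneg a]
          rw [hDab] at hpos
          linarith
        · exact h
      have haR : a < R := by
        rcases ha2.eq_or_lt with h | h
        · exfalso
          have : M ≤ M / R ^ 2 * (a ^ 2 + b * (2 * R - b)) := by
            calc M = M / R ^ 2 * R ^ 2 := hMR.symm
              _ ≤ _ := mul_le_mul_of_nonneg_left (by rw [h]; linarith) hM2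
          rw [hDab] at hpos
          linarith
        · exact h
      have haR' : -R < a := by
        rcases ha1.eq_or_lt with h | h
        · exfalso
          have : M ≤ M / R ^ 2 * (a ^ 2 + b * (2 * R - b)) := by
            calc M = M / R ^ 2 * R ^ 2 := hMR.symm
              _ ≤ _ := mul_le_mul_of_nonneg_left (by rw [← h]; nlinarith) hM2
          rw [hDab] at hpos
          linarith
        · exact h
      -- the two second derivatives
      have m1 : IsLocalMax (fun t => D (t, b)) a := by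
        filter_upwards [Ioo_mem_nhds haR' haR] with t ht
        exact hmax ⟨⟨ht.1.le, ht.2.le⟩, hb1, hb2⟩
      have m2 : IsLocalMax (fun t => D (a, t)) b := by
        filter_upwards [Ioo_mem_nhds hb0 hbR] with t ht
        exact hmax ⟨⟨ha1, ha2⟩, ht.1.le, ht.2.le⟩
      have d1 := second_deriv_nonpos (f := fun t => D (t, b))
        (f' := fun t => (w1 (x₀ + t) (y₀ + b) - w1 (x₀ + t) (y₀ - b)) / 2 - M / R ^ 2 * (2 * t))
        (s := (w11 (x₀ + a) (y₀ + b) - w11 (x₀ + a) (y₀ - b)) / 2 - M / R ^ 2 * 2) (a := a)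
        (fun t => by
          have e1 := (h1 (x₀ + t) (y₀ + b)).comp_const_add x₀ t
          have e2 := (h1 (x₀ + t) (y₀ - b)).comp_const_add x₀ t
          have e3 : HasDerivAt (fun t : ℝ => M / R ^ 2 * (t ^ 2 + b * (2 * R - b)) +
              (F + η) / 2 * (b * (R - b))) (M / R ^ 2 * (2 * t)) t := by
            have := (((hasDerivAt_pow 2 t).add_const (b * (2 * R - b))).const_mul
              (M / R ^ 2)).add_const ((F + η) / 2 * (b * (R - b)))
            simpa using this
          exact ((e1.sub e2).div_const 2).sub e3)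
        (by
          have e1 := (h11 (x₀ + a) (y₀ + b)).comp_const_add x₀ a
          have e2 := (h11 (x₀ + a) (y₀ - b)).comp_const_add x₀ a
          have e3 : HasDerivAt (fun t : ℝ => M / R ^ 2 * (2 * t)) (M / R ^ 2 * 2) a := by
            have := ((hasDerivAt_id a).const_mul 2).const_mul (M / R ^ 2)
            simpa using this
          exact ((e1.sub e2).div_const 2).sub e3) m1
      have d2 := second_deriv_nonpos (f := fun t => D (a, t))
        (f' := fun t => (w2 (x₀ + a) (y₀ + t) + w2 (x₀ + a) (y₀ - t)) / 2 -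
          (M / R ^ 2 * (2 * R - 2 * t) + (F + η) / 2 * (R - 2 * t)))
        (s := (w22 (x₀ + a) (y₀ + b) - w22 (x₀ + a) (y₀ - b)) / 2 -
          (M / R ^ 2 * (-2) + (F + η) / 2 * (-2))) (a := b)
        (fun t => by
          have e1 := (h2 (x₀ + a) (y₀ + t)).comp_const_add y₀ t
          have e2 := (h2 (x₀ + a) (y₀ - t)).comp_const_sub y₀ t
          have e3 : HasDerivAt (fun t : ℝ => M / R ^ 2 * (a ^ 2 + t * (2 * R - t)) +
              (F + η) / 2 * (t * (R - t))) (M / R ^ 2 * (2 * R - 2 * t) +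
              (F + η) / 2 * (R - 2 * t)) t := by
            have f1 : HasDerivAt (fun t : ℝ => a ^ 2 + t * (2 * R - t))
                (1 * (2 * R - t) + t * (-1)) t :=
              (((hasDerivAt_id t).mul ((hasDerivAt_id t).const_sub (2 * R)))).const_add _
            have f2 : HasDerivAt (fun t : ℝ => t * (R - t)) (1 * (R - t) + t * (-1)) t :=
              (hasDerivAt_id t).mul ((hasDerivAt_id t).const_sub R)
            have := (f1.const_mul (M / R ^ 2)).add (f2.const_mul ((F + η) / 2))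
            refine this.congr_deriv ?_
            ring
          refine (((e1.sub e2).div_const 2).sub e3).congr_deriv ?_
          ring)
        (by
          have e1 := (h22 (x₀ + a) (y₀ + b)).comp_const_add y₀ b
          have e2 := (h22 (x₀ + a) (y₀ - b)).comp_const_sub y₀ b
          have e3 : HasDerivAt (fun t : ℝ => M / R ^ 2 * (2 * R - 2 * t) +
              (F + η) / 2 * (R - 2 * t)) (M / R ^ 2 * (-2) + (F + η) / 2 * (-2)) b := by
            have f1 : HasDerivAt (fun t : ℝ => 2 * R - 2 * t) (-(2 * 1)) b :=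
              ((hasDerivAt_id b).const_mul 2).const_sub _
            have f2 : HasDerivAt (fun t : ℝ => R - 2 * t) (-(2 * 1)) b :=
              ((hasDerivAt_id b).const_mul 2).const_sub _
            have := (f1.const_mul (M / R ^ 2)).add (f2.const_mul ((F + η) / 2))
            refine this.congr_deriv ?_
            ring
          refine (((e1.add e2).div_const 2).sub e3).congr_deriv ?_
          ring) m2
      have l1 := (abs_le.1 hP.2).1
      have l2 := (abs_le.1 hN.2).2
      linarith
    intro y hy0 hyR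
    have h3 : D (0, y) ≤ D (a, b) := hmax (show ((0 : ℝ), y) ∈ Icc (-R) R ×ˢ Icc (0:ℝ) R from
      ⟨⟨by linarith, hR.le⟩, hy0, hyR⟩)
    have h4 : D (0, y) = (w x₀ (y₀ + y) - w x₀ (y₀ - y)) / 2 -
      (M / R ^ 2 * (y * (2 * R - y)) + (F + η) / 2 * (y * (R - y))) := by
      simp [hD]
    rw [h4] at h3
    linarith
  -- the derivative at zero
  have hη : ∀ η : ℝ, 0 < η → w2 x₀ y₀ ≤ 2 * M / R + (F + η) * R / 2 := by
    intro η hη
    have hder : HasDerivAt (fun y : ℝ => (w x₀ (y₀ + y) - w x₀ (y₀ - y)) / 2) (w2 x₀ y₀) 0 := by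
      have e1 := (h2 x₀ (y₀ + 0)).comp_const_add y₀ 0
      have e2 := (h2 x₀ (y₀ - 0)).comp_const_sub y₀ 0
      refine ((e1.sub e2).div_const 2).congr_deriv ?_
      simp
    have hs := hder.tendsto_slope_zero_right
    refine le_of_tendsto hs ?_
    filter_upwards [Ioc_mem_nhdsGT hR] with y hy
    have h3 := key η hη y hy.1.le hy.2
    simp only [zero_add, add_zero, sub_zero, sub_self, zero_div, smul_eq_mul]
    rw [inv_mul_le_iff₀ hy.1]
    refine h3.trans ?_
    have e1 : M / R ^ 2 * (y * (2 * R - y)) ≤ y * (2 * M / R) := by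
      have : y * (2 * M / R) = M / R ^ 2 * (y * (2 * R)) := by field_simp
      rw [this]
      refine mul_le_mul_of_nonneg_left ?_ (by positivity)
      nlinarith [hy.1]
    have e2 : (F + η) / 2 * (y * (R - y)) ≤ y * ((F + η) * R / 2) := by
      have : y * ((F + η) * R / 2) = (F + η) / 2 * (y * R) := by ring
      rw [this]
      refine mul_le_mul_of_nonneg_left ?_ (by positivity)
      nlinarith [hy.1]
    linarith
  have hlim : Tendsto (fun η : ℝ => 2 * M / R + (F + η) * R / 2) (𝓝[>] 0)
      (𝓝 (2 * M / R + (F + 0) * R / 2)) := by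
    have : Continuous fun η : ℝ => 2 * M / R + (F + η) * R / 2 := by fun_prop
    exact (this.tendsto 0).mono_left nhdsWithin_le_nhds
  rw [add_zero] at hlim
  refine ge_of_tendsto hlim ?_
  filter_upwards [self_mem_nhdsWithin] with η h
  exact hη η h

/-- two-sided estimate -/
theorem core_abs (w w1 w2 w11 w22 : ℝ → ℝ → ℝ) (hc : Continuous (fun p : ℝ × ℝ => w p.1 p.2))
    (h1 : ∀ x y, HasDerivAt (fun t => w t y) (w1 x y) x)
    (h11 : ∀ x y, HasDerivAt (fun t => w1 t y) (w11 x y) x)
    (h2 : ∀ x y, HasDerivAt (fun t => w x t) (w2 x y) y)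
    (h22 : ∀ x y, HasDerivAt (fun t => w2 x t) (w22 x y) y)
    (x₀ y₀ R M F : ℝ) (hR : 0 < R)
    (hb : ∀ x y, |x - x₀| ≤ R → |y - y₀| ≤ R → |w x y| ≤ M ∧ |w11 x y + w22 x y| ≤ F) :
    |w2 x₀ y₀| ≤ 2 * M / R + F * R / 2 := by
  rw [abs_le]
  constructor
  · have := core (fun x y => -w x y) (fun x y => -w1 x y) (fun x y => -w2 x y)
      (fun x y => -w11 x y) (fun x y => -w22 x y) hc.neg (fun x y => (h1 x y).neg)
      (fun x y => (h11 x y).neg) (fun x y => (h2 x y).neg) (fun x y => (h22 x y).neg)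
      x₀ y₀ R M F hR (fun x y hx hy => by
        have h := hb x y hx hy
        refine ⟨by rw [abs_neg]; exact h.1, ?_⟩
        have e : -w11 x y + -w22 x y = -(w11 x y + w22 x y) := by ring
        rw [e, abs_neg]
        exact h.2)
    linarith
  · exact core w w1 w2 w11 w22 hc h1 h11 h2 h22 x₀ y₀ R M F hR hb

lemma hasDerivAt_dx {v : ℝ × ℝ → ℝ} (hv : Differentiable ℝ v) (x y : ℝ) :
    HasDerivAt (fun t => v (t, y)) (dx v (x, y)) x := by
  have h1 : HasDerivAt (fun t : ℝ => (t, y)) ((1 : ℝ), (0 : ℝ)) x :=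
    (hasDerivAt_id x).prodMk (hasDerivAt_const x y)
  exact (hv (x, y)).hasFDerivAt.comp_hasDerivAt x h1

lemma hasDerivAt_dy {v : ℝ × ℝ → ℝ} (hv : Differentiable ℝ v) (x y : ℝ) :
    HasDerivAt (fun t => v (x, t)) (dy v (x, y)) y := by
  have h1 : HasDerivAt (fun t : ℝ => (x, t)) ((0 : ℝ), (1 : ℝ)) y :=
    (hasDerivAt_const y x).prodMk (hasDerivAt_id y)
  exact (hv (x, y)).hasFDerivAt.comp_hasDerivAt y h1

lemma contDiff_dx {v : ℝ × ℝ → ℝ} (hv : ContDiff ℝ 2 v) : ContDiff ℝ 1 (dx v) := by
  have h1 : ContDiff ℝ 1 (fderiv ℝ v) := hv.fderiv_right (by norm_num)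
  exact h1.clm_apply contDiff_const

lemma contDiff_dy {v : ℝ × ℝ → ℝ} (hv : ContDiff ℝ 2 v) : ContDiff ℝ 1 (dy v) := by
  have h1 : ContDiff ℝ 1 (fderiv ℝ v) := hv.fderiv_right (by norm_num)
  exact h1.clm_apply contDiff_const

theorem T_GR : S_GR := by
  intro w hw p₀ R M F hR hb
  have hwd : Differentiable ℝ w := hw.differentiable (by norm_num)
  have hdx : Differentiable ℝ (dx w) := (contDiff_dx hw).differentiable (by norm_num)
  have hdy : Differentiable ℝ (dy w) := (contDiff_dy hw).differentiable (by norm_num)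
  constructor
  · refine core_abs (fun x y => w (y, x)) (fun x y => dy w (y, x)) (fun x y => dx w (y, x))
      (fun x y => dy (dy w) (y, x)) (fun x y => dx (dx w) (y, x))
      (hw.continuous.comp (f := fun p : ℝ × ℝ => (p.2, p.1)) (by fun_prop))
      (fun x y => hasDerivAt_dy hwd y x) (fun x y => hasDerivAt_dy hdy y x)
      (fun x y => hasDerivAt_dx hwd y x) (fun x y => hasDerivAt_dx hdx y x)
      p₀.2 p₀.1 R M F hR (fun x y hx hy => ?_)
    have h := hb (y, x) hy hx
    refine ⟨h.1, ?_⟩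
    have e : dy (dy w) (y, x) + dx (dx w) (y, x) = lap w (y, x) := by
      rw [lap]; ring
    rw [e]
    exact h.2
  · exact core_abs (fun x y => w (x, y)) (fun x y => dx w (x, y)) (fun x y => dy w (x, y))
      (fun x y => dx (dx w) (x, y)) (fun x y => dy (dy w) (x, y))
      hw.continuous
      (fun x y => hasDerivAt_dx hwd x y) (fun x y => hasDerivAt_dx hdx x y)
      (fun x y => hasDerivAt_dy hwd x y) (fun x y => hasDerivAt_dy hdy x y)
      p₀.1 p₀.2 R M F hR (fun x y hx hy => hb (x, y) hx hy)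

end Pool.Agent.W571.RB
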