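import Mathlib
import Pool.Agent.W98.RB.Defs
import Pool.Agent.W571.RB.GR

/-!
# Mollification of bounded distributional solutions (RB-MOL)
-/

set_option autoImplicit false

open MeasureTheory Set Filter Topology
open scoped ENNReal NNReal Convolution
open Pool.Agent.W98.RB

namespace Pool.Agent.W571.RB

/-- the bilinear map of the convolution -/
noncomputable def LL : ℝ →L[ℝ] ℝ →L[ℝ] ℝ := (ContinuousLinearMap.lsmul ℝ ℝ).flip

lemma LL_apply (a b : ℝ) : LL a b = a * b := by
  simp [LL, mul_comm]

lemma conv_apply (a b : ℝ × ℝ → ℝ) (x : ℝ × ℝ) :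
    (a ⋆[LL, volume] b) x = ∫ t, a t * b (x - t) := by
  rw [convolution_def]
  simp only [LL_apply]

lemma dx_conv {a b : ℝ × ℝ → ℝ} (ha : LocallyIntegrable a) (hb : ContDiff ℝ 1 b)
    (hcb : HasCompactSupport b) : dx (a ⋆[LL, volume] b) = a ⋆[LL, volume] (dx b) := by
  funext x
  unfold dx
  rw [(hcb.hasFDerivAt_convolution_right LL ha hb x).fderiv]
  exact convolution_precompR_apply LL ha (hcb.fderiv ℝ) (hb.continuous_fderiv (by norm_num)) x _

lemma dy_conv {a b : ℝ × ℝ → ℝ} (ha : LocallyIntegrable a) (hb : ContDiff ℝ 1 b)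
    (hcb : HasCompactSupport b) : dy (a ⋆[LL, volume] b) = a ⋆[LL, volume] (dy b) := by
  funext x
  unfold dy
  rw [(hcb.hasFDerivAt_convolution_right LL ha hb x).fderiv]
  exact convolution_precompR_apply LL ha (hcb.fderiv ℝ) (hb.continuous_fderiv (by norm_num)) x _

lemma cs_dx {b : ℝ × ℝ → ℝ} (hcb : HasCompactSupport b) : HasCompactSupport (dx b) :=
  hcb.fderiv_apply ℝ (1, 0)

lemma cs_dy {b : ℝ × ℝ → ℝ} (hcb : HasCompactSupport b) : HasCompactSupport (dy b) :=
  hcb.fderiv_apply ℝ (0, 1)

lemma lap_conv {a b : ℝ × ℝ → ℝ} (ha : LocallyIntegrable a) (hb : ContDiff ℝ 2 b)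
    (hcb : HasCompactSupport b) (x : ℝ × ℝ) :
    lap (a ⋆[LL, volume] b) x = ∫ t, a t * lap b (x - t) := by
  have hb1 : ContDiff ℝ 1 b := hb.of_le (by norm_num)
  have h1 := contDiff_dx hb
  have h2 := contDiff_dy hb
  have hc1 : Continuous (dx (dx b)) :=
    (h1.continuous_fderiv (by norm_num)).clm_apply continuous_const
  have hc2 : Continuous (dy (dy b)) :=
    (h2.continuous_fderiv (by norm_num)).clm_apply continuous_const
  unfold lap
  rw [dx_conv ha hb1 hcb, dy_conv ha hb1 hcb, dx_conv ha h1 (cs_dx hcb), dy_conv ha h2 (cs_dy hcb),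
    conv_apply, conv_apply, ← integral_add]
  · refine integral_congr_ae (Eventually.of_forall fun t => ?_)
    simp only
    ring
  · have := (cs_dx (cs_dx hcb)).convolutionExists_right LL ha hc1 x
    unfold ConvolutionExistsAt at this
    simpa only [LL_apply] using this
  · have := (cs_dy (cs_dy hcb)).convolutionExists_right LL ha hc2 x
    unfold ConvolutionExistsAt at this
    simpa only [LL_apply] using this

lemma dx_refl (b : ℝ × ℝ → ℝ) (hb : Differentiable ℝ b) (x : ℝ × ℝ) :
    dx (fun t => b (x - t)) = fun t => - dx b (x - t) := by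
  funext t
  unfold dx
  have h1 : HasFDerivAt (fun t : ℝ × ℝ => x - t) (-ContinuousLinearMap.id ℝ (ℝ × ℝ)) t :=
    (hasFDerivAt_id t).const_sub x
  have h2 := (hb (x - t)).hasFDerivAt.comp t h1
  have h3 : fderiv ℝ (fun t => b (x - t)) t =
      (fderiv ℝ b (x - t)).comp (-ContinuousLinearMap.id ℝ (ℝ × ℝ)) := h2.fderiv
  rw [h3]
  simp only [ContinuousLinearMap.comp_apply, neg_apply,
    ContinuousLinearMap.id_apply, map_neg]

lemma dy_refl (b : ℝ × ℝ → ℝ) (hb : Differentiable ℝ b) (x : ℝ × ℝ) :
    dy (fun t => b (x - t)) = fun t => - dy b (x - t) := by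
  funext t
  unfold dy
  have h1 : HasFDerivAt (fun t : ℝ × ℝ => x - t) (-ContinuousLinearMap.id ℝ (ℝ × ℝ)) t :=
    (hasFDerivAt_id t).const_sub x
  have h2 := (hb (x - t)).hasFDerivAt.comp t h1
  have h3 : fderiv ℝ (fun t => b (x - t)) t =
      (fderiv ℝ b (x - t)).comp (-ContinuousLinearMap.id ℝ (ℝ × ℝ)) := h2.fderiv
  rw [h3]
  simp only [ContinuousLinearMap.comp_apply, neg_apply,
    ContinuousLinearMap.id_apply, map_neg]

lemma dx_neg (b : ℝ × ℝ → ℝ) : dx (fun t => - b t) = fun t => - dx b t := by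
  funext t
  unfold dx
  rw [fderiv_fun_neg]
  rfl

lemma dy_neg (b : ℝ × ℝ → ℝ) : dy (fun t => - b t) = fun t => - dy b t := by
  funext t
  unfold dy
  rw [fderiv_fun_neg]
  rfl

lemma lap_refl {b : ℝ × ℝ → ℝ} (hb : ContDiff ℝ 2 b) (x t : ℝ × ℝ) :
    lap (fun t => b (x - t)) t = lap b (x - t) := by
  have hbd : Differentiable ℝ b := hb.differentiable (by norm_num)
  have h1 : Differentiable ℝ (dx b) := (contDiff_dx hb).differentiable (by norm_num)
  have h2 : Differentiable ℝ (dy b) := (contDiff_dy hb).differentiable (by norm_num)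
  unfold lap
  rw [dx_refl b hbd, dy_refl b hbd, dx_neg, dy_neg, dx_refl _ h1, dy_refl _ h2]
  ring

/-- RB-MOL -/
theorem T_MOL : S_MOL := by
  intro Ω hΩ u g hu hg M F hM hF hweak
  -- the bumps
  let φ : ℕ → ContDiffBump (0 : ℝ × ℝ) := fun n =>
    ⟨1 / (3 * ((n : ℝ) + 1)), 1 / (2 * ((n : ℝ) + 1)), by positivity, by
      apply one_div_lt_one_div_of_lt <;> nlinarith [(Nat.cast_nonneg n : (0:ℝ) ≤ n)]⟩
  have hout : ∀ n, (φ n).rOut = 1 / (2 * ((n : ℝ) + 1)) := fun n => rfl
  have hin : ∀ n, (φ n).rIn = 1 / (3 * ((n : ℝ) + 1)) := fun n => rfl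
  set ub : ℝ × ℝ → ℝ := Ω.indicator u with hub
  have hubm : Measurable ub := hu.indicator hΩ.measurableSet
  have hubb : ∀ p, |ub p| ≤ |M| := by
    intro p
    by_cases hp : p ∈ Ω
    · rw [hub, indicator_of_mem hp]
      exact (hM p hp).trans (le_abs_self _)
    · rw [hub, indicator_of_notMem hp, abs_zero]
      exact abs_nonneg _
  have hloc : LocallyIntegrable ub volume := by
    have h1 : LocallyIntegrable (fun _ : ℝ × ℝ => |M|) volume := locallyIntegrable_const _
    refine h1.mono hubm.aestronglyMeasurable (Eventually.of_forall fun p => ?_)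
    rw [Real.norm_eq_abs, Real.norm_eq_abs, abs_abs]
    exact hubb p
  set ρ : ℕ → ℝ × ℝ → ℝ := fun n => (φ n).normed volume with hρ
  have hρs : ∀ n, ContDiff ℝ (⊤ : ℕ∞) (ρ n) := fun n => (φ n).contDiff_normed
  have hρ2 : ∀ n, ContDiff ℝ 2 (ρ n) := fun n => (φ n).contDiff_normed
  have hρc : ∀ n, HasCompactSupport (ρ n) := fun n => (φ n).hasCompactSupport_normed
  have hρ0 : ∀ n x, 0 ≤ ρ n x := fun n x => (φ n).nonneg_normed x
  have hρ1 : ∀ n, ∫ x, ρ n x = 1 := fun n => (φ n).integral_normed
  have hρt : ∀ n, tsupport (ρ n) = Metric.closedBall 0 (φ n).rOut := fun n =>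
    (φ n).tsupport_normed_eq
  have hρi : ∀ n, Integrable (ρ n) := fun n => (φ n).integrable_normed
  refine ⟨fun n => ub ⋆[LL, volume] ρ n, fun n => ?_, ?_, ?_⟩
  · exact (hρc n).contDiff_convolution_right LL hloc (hρs n)
  · intro n x hx
    have hxΩ : x ∈ Ω := hx (Metric.mem_closedBall_self (by positivity))
    have hM0 : 0 ≤ M := (abs_nonneg _).trans (hM x hxΩ)
    have hF0 : 0 ≤ F := (abs_nonneg _).trans (hF x hxΩ)
    have hint : Integrable fun t => ρ n (x - t) := (hρi n).comp_sub_left x
    have hint1 : ∫ t, ρ n (x - t) = 1 := by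
      rw [integral_sub_left_eq_self (fun t => ρ n t) volume x]
      exact hρ1 n
    constructor
    · show |(ub ⋆[LL, volume] ρ n) x| ≤ M
      rw [conv_apply, ← Real.norm_eq_abs]
      calc ‖∫ t, ub t * ρ n (x - t)‖ ≤ ∫ t, M * ρ n (x - t) := by
            refine norm_integral_le_of_norm_le (hint.const_mul M)
              (Eventually.of_forall fun t => ?_)
            rw [norm_mul, Real.norm_eq_abs, Real.norm_eq_abs, abs_of_nonneg (hρ0 n (x - t))]
            refine mul_le_mul_of_nonneg_right ?_ (hρ0 n _)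
            exact (hubb t).trans (abs_of_nonneg hM0).le
        _ = M := by rw [integral_const_mul, hint1, mul_one]
    · show |lap (ub ⋆[LL, volume] ρ n) x| ≤ F
      rw [lap_conv hloc (hρ2 n) (hρc n)]
      set η : ℝ × ℝ → ℝ := fun t => ρ n (x - t) with hη
      have hηs : ContDiff ℝ (⊤ : ℕ∞) η := (hρs n).comp (contDiff_const.sub contDiff_id)
      have hηsup : tsupport η ⊆ Metric.closedBall x (φ n).rOut := by
        refine closure_minimal (fun t ht => ?_) Metric.isClosed_closedBall
        have h1 : x - t ∈ tsupport (ρ n) := subset_tsupport _ ht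
        rw [hρt, Metric.mem_closedBall, dist_zero_right] at h1
        rw [Metric.mem_closedBall, dist_comm, dist_eq_norm]
        exact h1
      have hηc : HasCompactSupport η :=
        (isCompact_closedBall x (φ n).rOut).of_isClosed_subset (isClosed_tsupport _) hηsup
      have hηΩ : tsupport η ⊆ Ω := by
        refine hηsup.trans ((Metric.closedBall_subset_closedBall ?_).trans hx)
        rw [hout]
        apply one_div_le_one_div_of_le <;> nlinarith [(Nat.cast_nonneg n : (0:ℝ) ≤ n)]
      have hw := hweak η hηs hηc hηΩ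
      have e1 : ∫ t, ub t * lap (ρ n) (x - t) = ∫ p in Ω, u p * lap η p := by
        rw [← integral_indicator hΩ.measurableSet]
        refine integral_congr_ae (Eventually.of_forall fun t => ?_)
        simp only
        by_cases ht : t ∈ Ω
        · rw [indicator_of_mem ht, hub, indicator_of_mem ht, hη, lap_refl (hρ2 n)]
        · rw [indicator_of_notMem ht, hub, indicator_of_notMem ht, zero_mul]
      rw [e1, hw, abs_neg, ← Real.norm_eq_abs]
      calc ‖∫ p in Ω, g p * η p‖ ≤ ∫ p in Ω, F * η p := by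
            refine norm_integral_le_of_norm_le (hint.integrableOn.const_mul F) ?_
            refine (ae_restrict_mem hΩ.measurableSet).mono fun t ht => ?_
            rw [norm_mul, Real.norm_eq_abs, Real.norm_eq_abs, abs_of_nonneg (hρ0 n (x - t))]
            exact mul_le_mul_of_nonneg_right (hF t ht) (hρ0 n _)
        _ ≤ ∫ p, F * η p := by
            refine setIntegral_le_integral (hint.const_mul F) (Eventually.of_forall fun t => ?_)
            exact mul_nonneg hF0 (hρ0 n _)
        _ = F := by rw [integral_const_mul, hint1, mul_one]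
  · have h1 : Tendsto (fun n => (φ n).rOut) atTop (𝓝 0) := by
      have h2 : Tendsto (fun n : ℕ => 1 / 2 * (1 / ((n : ℝ) + 1))) atTop (𝓝 (1 / 2 * 0)) :=
        tendsto_one_div_add_atTop_nhds_zero_nat.const_mul _
      rw [mul_zero] at h2
      refine h2.congr fun n => ?_
      rw [hout]
      field_simp
    have h2 := ContDiffBump.ae_convolution_tendsto_right_of_locallyIntegrable (μ := volume)
      (K := 2) (φ := φ) h1
      (Eventually.of_forall fun n => by
        rw [hout, hin, mul_one_div, div_le_div_iff₀ (by positivity) (by positivity)]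
        nlinarith [(Nat.cast_nonneg n : (0:ℝ) ≤ n)]) hloc
    rw [ae_restrict_iff' hΩ.measurableSet]
    filter_upwards [h2] with p hp hpΩ
    have e : ub p = u p := indicator_of_mem hpΩ u
    rw [e] at hp
    refine hp.congr fun n => ?_
    rw [conv_apply, ← convolution_flip, convolution_def]
    refine integral_congr_ae (Eventually.of_forall fun t => ?_)
    simp [mul_comm, hρ]

end Pool.Agent.W571.RB
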