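import Mathlib
import Pool.Agent.W98.RB.Defs
import Pool.Agent.W571.RB.GR

/-!
# Passage to the limit in the mollification (RB-C1)
-/

set_option autoImplicit false

open MeasureTheory Set Filter Topology
open scoped ENNReal NNReal
open Pool.Agent.W98.RB

namespace Pool.Agent.W571.RB

lemma opNorm_le {L : ℝ × ℝ →L[ℝ] ℝ} {C : ℝ} (h1 : |L (1, 0)| ≤ C) (h2 : |L (0, 1)| ≤ C) :
    ‖L‖ ≤ 2 * C := by
  have hC : 0 ≤ C := (abs_nonneg _).trans h1
  refine L.opNorm_le_bound (by linarith) fun p => ?_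
  have e : L p = p.1 * L (1, 0) + p.2 * L (0, 1) := by
    have : p = p.1 • ((1 : ℝ), (0 : ℝ)) + p.2 • ((0 : ℝ), (1 : ℝ)) := by
      ext <;> simp
    conv_lhs => rw [this]
    rw [map_add, map_smul, map_smul, smul_eq_mul, smul_eq_mul]
  rw [e, Real.norm_eq_abs]
  have n1 : |p.1| ≤ ‖p‖ := norm_fst_le p
  have n2 : |p.2| ≤ ‖p‖ := norm_snd_le p
  calc |p.1 * L (1, 0) + p.2 * L (0, 1)| ≤ |p.1 * L (1, 0)| + |p.2 * L (0, 1)| := abs_add_le _ _
    _ = |p.1| * |L (1, 0)| + |p.2| * |L (0, 1)| := by rw [abs_mul, abs_mul]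
    _ ≤ ‖p‖ * C + ‖p‖ * C := by gcongr
    _ = 2 * C * ‖p‖ := by ring

lemma dx_sub {v w : ℝ × ℝ → ℝ} (hv : Differentiable ℝ v) (hw : Differentiable ℝ w) :
    dx (fun p => v p - w p) = fun p => dx v p - dx w p := by
  funext p
  unfold dx
  rw [fderiv_fun_sub (hv p) (hw p)]
  rfl

lemma dy_sub {v w : ℝ × ℝ → ℝ} (hv : Differentiable ℝ v) (hw : Differentiable ℝ w) :
    dy (fun p => v p - w p) = fun p => dy v p - dy w p := by
  funext p
  unfold dy
  rw [fderiv_fun_sub (hv p) (hw p)]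
  rfl

lemma lap_sub {v w : ℝ × ℝ → ℝ} (hv : ContDiff ℝ 2 v) (hw : ContDiff ℝ 2 w) (p : ℝ × ℝ) :
    lap (fun p => v p - w p) p = lap v p - lap w p := by
  have hvd : Differentiable ℝ v := hv.differentiable (by norm_num)
  have hwd : Differentiable ℝ w := hw.differentiable (by norm_num)
  have h1 : Differentiable ℝ (dx v) := (contDiff_dx hv).differentiable (by norm_num)
  have h2 : Differentiable ℝ (dy v) := (contDiff_dy hv).differentiable (by norm_num)
  have h3 : Differentiable ℝ (dx w) := (contDiff_dx hw).differentiable (by norm_num)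
  have h4 : Differentiable ℝ (dy w) := (contDiff_dy hw).differentiable (by norm_num)
  unfold lap
  rw [dx_sub hvd hwd, dy_sub hvd hwd, dx_sub h1 h3, dy_sub h2 h4]
  ring

lemma mem_cb {p q : ℝ × ℝ} {r : ℝ} (h1 : |q.1 - p.1| ≤ r) (h2 : |q.2 - p.2| ≤ r) :
    q ∈ Metric.closedBall p r := by
  rw [Metric.mem_closedBall, Prod.dist_eq, max_le_iff, Real.dist_eq, Real.dist_eq]
  exact ⟨h1, h2⟩

/-- the local statement -/
theorem localCauchy (hG : S_GR) {Ω : Set (ℝ × ℝ)} (hΩ : IsOpen Ω) {u : ℝ × ℝ → ℝ} {M F : ℝ}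
    {w : ℕ → ℝ × ℝ → ℝ} (hw : ∀ n, ContDiff ℝ (⊤ : ℕ∞) (w n))
    (hb : ∀ (n : ℕ) (p : ℝ × ℝ), Metric.closedBall p (1 / ((n : ℝ) + 1)) ⊆ Ω →
      |w n p| ≤ M ∧ |lap (w n) p| ≤ F)
    (hu : ∀ᵐ p ∂(volume.restrict Ω), Tendsto (fun n => w n p) atTop (𝓝 (u p)))
    {p₀ : ℝ × ℝ} (hp₀ : p₀ ∈ Ω) :
    ∃ r : ℝ, 0 < r ∧ Metric.ball p₀ r ⊆ Ω ∧
      UniformCauchySeqOn w atTop (Metric.ball p₀ r) ∧
      UniformCauchySeqOn (fun n => fderiv ℝ (w n)) atTop (Metric.ball p₀ r) := by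
  obtain ⟨ρ, hρ, hρΩ⟩ := (Metric.nhds_basis_closedBall (x := p₀)).mem_iff.1
    (hΩ.mem_nhds hp₀)
  set r : ℝ := ρ / 5 with hr
  have hr0 : 0 < r := by positivity
  have hρr : ρ = 5 * r := by rw [hr]; ring
  obtain ⟨n₀, hn₀⟩ := exists_nat_gt (1 / r)
  have hsub : ∀ n ≥ n₀, ∀ p ∈ Metric.closedBall p₀ (4 * r), |w n p| ≤ M ∧ |lap (w n) p| ≤ F := by
    intro n hn p hp
    refine hb n p fun q hq => hρΩ ?_
    rw [Metric.mem_closedBall] at hp hq ⊢
    have h1 : 1 / ((n : ℝ) + 1) ≤ r := by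
      rw [div_le_iff₀ (by positivity)]
      have h2 : (n₀ : ℝ) ≤ n := by exact_mod_cast hn
      rw [div_lt_iff₀ hr0] at hn₀
      nlinarith
    have := dist_triangle q p p₀
    rw [hρr]
    linarith
  have hw2 : ∀ n, ContDiff ℝ 2 (w n) := fun n => by exact_mod_cast contDiff_infty.1 (hw n) 2
  have hwd : ∀ n, Differentiable ℝ (w n) := fun n => (hw2 n).differentiable (by norm_num)
  have hp4 : p₀ ∈ Metric.closedBall p₀ (4 * r) := Metric.mem_closedBall_self (by positivity)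
  have hM : 0 ≤ M := (abs_nonneg _).trans (hsub n₀ le_rfl p₀ hp4).1
  have hF : 0 ≤ F := (abs_nonneg _).trans (hsub n₀ le_rfl p₀ hp4).2
  set C : ℝ := 2 * M / r + F * r / 2 with hC
  have hC0 : 0 ≤ C := by positivity
  -- Lipschitz bounds
  have hfd : ∀ n ≥ n₀, ∀ p ∈ Metric.closedBall p₀ (3 * r), ‖fderiv ℝ (w n) p‖ ≤ 2 * C := by
    intro n hn p hp
    have h := hG (w n) (hw2 n) p r M F hr0 (fun q h1 h2 => hsub n hn q (by
      have h3 := mem_cb h1 h2
      rw [Metric.mem_closedBall] at hp h3 ⊢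
      have := dist_triangle q p p₀
      linarith))
    exact opNorm_le h.1 h.2
  have hlip : ∀ n ≥ n₀, ∀ p ∈ Metric.closedBall p₀ (3 * r), ∀ q ∈ Metric.closedBall p₀ (3 * r),
      |w n q - w n p| ≤ 2 * C * dist q p := by
    intro n hn p hp q hq
    have h := (convex_closedBall p₀ (3 * r)).norm_image_sub_le_of_norm_fderiv_le (𝕜 := ℝ)
      (f := w n) (C := 2 * C) (fun x _ => (hwd n) x) (fun x hx => hfd n hn x hx) hp hq
    rwa [dist_eq_norm, ← Real.norm_eq_abs]
  -- uniform Cauchy on the ball of radius `2 r`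
  have huc : ∀ ε : ℝ, 0 < ε → ∃ N, ∀ m ≥ N, ∀ n ≥ N, ∀ p ∈ Metric.closedBall p₀ (2 * r),
      |w m p - w n p| < ε := by
    intro ε hε
    set δ : ℝ := min (r / 2) (ε / (24 * C + 1)) with hδ
    have hδ0 : 0 < δ := by positivity
    have hδr : δ ≤ r / 2 := min_le_left _ _
    have hδC : 8 * C * δ ≤ ε / 3 := by
      have h1 : δ ≤ ε / (24 * C + 1) := min_le_right _ _
      rw [le_div_iff₀ (by positivity)] at h1
      nlinarith
    obtain ⟨t, hts, htf, htc⟩ := (isCompact_closedBall p₀ (2 * r)).finite_cover_balls hδ0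
    have hd : Dense {p : ℝ × ℝ | p ∈ Ω → Tendsto (fun n => w n p) atTop (𝓝 (u p))} :=
      MeasureTheory.Measure.dense_of_ae ((ae_restrict_iff' hΩ.measurableSet).1 hu)
    have hz : ∀ x : ℝ × ℝ, ∃ z ∈ Metric.ball x δ, z ∈ Ω → Tendsto (fun n => w n z) atTop (𝓝 (u z)) := by
      intro x
      obtain ⟨z, hz1, hz2⟩ := hd.inter_open_nonempty _ Metric.isOpen_ball
        (⟨x, Metric.mem_ball_self hδ0⟩ : (Metric.ball x δ).Nonempty)
      exact ⟨z, hz1, hz2⟩
    choose z hz1 hz2 using hz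
    have hzr : ∀ x ∈ Metric.closedBall p₀ (2 * r), z x ∈ Metric.closedBall p₀ (3 * r) := by
      intro x hx
      have h1 := hz1 x
      rw [Metric.mem_closedBall] at hx ⊢
      rw [Metric.mem_ball] at h1
      have := dist_triangle (z x) x p₀
      linarith
    have hev : ∀ᶠ N in atTop, ∀ x ∈ t, ∀ m ≥ N, ∀ n ≥ N, |w m (z x) - w n (z x)| < ε / 3 := by
      refine (eventually_all_finite htf).2 fun x hx => ?_
      have hxr := hzr x (hts hx)
      have hxΩ : z x ∈ Ω := hρΩ (by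
        rw [Metric.mem_closedBall] at hxr ⊢
        rw [hρr]; linarith)
      have hcs := (hz2 x hxΩ).cauchySeq
      obtain ⟨N, hN⟩ := Metric.cauchySeq_iff.1 hcs (ε / 3) (by positivity)
      filter_upwards [eventually_ge_atTop N] with N' hN' m hm n hn
      exact hN m (hN'.trans hm) n (hN'.trans hn)
    obtain ⟨N, hN, hNn⟩ := (hev.and (eventually_ge_atTop n₀)).exists
    refine ⟨N, fun m hm n hn p hp => ?_⟩
    obtain ⟨x, hx, hpx⟩ := mem_iUnion₂.1 (htc hp)
    have hp3 : p ∈ Metric.closedBall p₀ (3 * r) :=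
      Metric.closedBall_subset_closedBall (by linarith) hp
    have hz3 := hzr x (hts hx)
    have hdp : dist (z x) p ≤ 2 * δ := by
      have h1 := hz1 x
      rw [Metric.mem_ball] at h1 hpx
      have := dist_triangle_right (z x) p x
      linarith
    have l1 := hlip m (hNn.trans hm) p hp3 (z x) hz3
    have l2 := hlip n (hNn.trans hn) p hp3 (z x) hz3
    have l3 := hN x hx m hm n hn
    have l4 : 2 * C * dist (z x) p ≤ 4 * C * δ := by nlinarith
    rw [abs_le] at l1 l2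
    rw [abs_lt] at l3 ⊢
    constructor <;> linarith [l1.1, l1.2, l2.1, l2.2, l3.1, l3.2]
  refine ⟨r, hr0, fun q hq => hρΩ (by
    rw [Metric.mem_ball] at hq
    rw [Metric.mem_closedBall, hρr]
    linarith), ?_, ?_⟩
  · rw [Metric.uniformCauchySeqOn_iff]
    intro ε hε
    obtain ⟨N, hN⟩ := huc ε hε
    refine ⟨N, fun m hm n hn p hp => ?_⟩
    rw [Real.dist_eq]
    refine hN m hm n hn p ?_
    rw [Metric.mem_ball] at hp
    rw [Metric.mem_closedBall]
    linarith
  · rw [Metric.uniformCauchySeqOn_iff]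
    intro ε hε
    set R : ℝ := min r (ε / (8 * F + 1)) with hR
    have hR0 : 0 < R := by positivity
    have hRr : R ≤ r := min_le_left _ _
    have hRF : F * R ≤ ε / 8 := by
      have h1 : R ≤ ε / (8 * F + 1) := min_le_right _ _
      rw [le_div_iff₀ (by positivity)] at h1
      nlinarith
    obtain ⟨N, hN⟩ := huc (ε * R / 16) (by positivity)
    refine ⟨max N n₀, fun m hm n hn p hp => ?_⟩
    have hm1 : N ≤ m := (le_max_left _ _).trans hm
    have hm2 : n₀ ≤ m := (le_max_right _ _).trans hm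
    have hn1 : N ≤ n := (le_max_left _ _).trans hn
    have hn2 : n₀ ≤ n := (le_max_right _ _).trans hn
    have h := hG (fun p => w m p - w n p) ((hw2 m).sub (hw2 n)) p R (ε * R / 16) (2 * F) hR0
      (fun q h1 h2 => by
        have h3 := mem_cb h1 h2
        rw [Metric.mem_closedBall] at h3
        rw [Metric.mem_ball] at hp
        have h4 := dist_triangle q p p₀
        refine ⟨(hN m hm1 n hn1 q ?_).le, ?_⟩
        · rw [Metric.mem_closedBall]
          linarith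
        · rw [lap_sub (hw2 m) (hw2 n)]
          have h5 := (hsub m hm2 q (by rw [Metric.mem_closedBall]; linarith)).2
          have h6 := (hsub n hn2 q (by rw [Metric.mem_closedBall]; linarith)).2
          rw [abs_le] at h5 h6 ⊢
          constructor <;> linarith [h5.1, h5.2, h6.1, h6.2])
    have hbd : 2 * (ε * R / 16) / R + 2 * F * R / 2 ≤ ε / 4 := by
      have : 2 * (ε * R / 16) / R = ε / 8 := by field_simp; ring
      rw [this]
      linarith
    have hdd := opNorm_le (h.1.trans hbd) (h.2.trans hbd)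
    rw [dist_eq_norm]
    have e : fderiv ℝ (fun p => w m p - w n p) p = fderiv ℝ (w m) p - fderiv ℝ (w n) p :=
      fderiv_fun_sub (hwd m p) (hwd n p)
    rw [e] at hdd
    linarith

/-- RB-C1, from the gradient estimate -/
theorem T_C1 (hG : S_GR) : S_C1 := by
  intro Ω hΩ u M F ⟨w, hw, hb, hu⟩
  have hw2 : ∀ n, ContDiff ℝ 2 (w n) := fun n => by exact_mod_cast contDiff_infty.1 (hw n) 2
  have hwd : ∀ n, Differentiable ℝ (w n) := fun n => (hw2 n).differentiable (by norm_num)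
  have hwc : ∀ n, Continuous (fderiv ℝ (w n)) := fun n =>
    (hw2 n).continuous_fderiv (by norm_num)
  set U : ℝ × ℝ → ℝ := fun p => limUnder atTop (fun n => w n p) with hU
  set U' : ℝ × ℝ → (ℝ × ℝ →L[ℝ] ℝ) := fun p => limUnder atTop (fun n => fderiv ℝ (w n) p) with hU'
  have hloc : ∀ p₀ ∈ Ω, ∃ r : ℝ, 0 < r ∧ Metric.ball p₀ r ⊆ Ω ∧
      UniformCauchySeqOn w atTop (Metric.ball p₀ r) ∧
      UniformCauchySeqOn (fun n => fderiv ℝ (w n)) atTop (Metric.ball p₀ r) :=
    fun p₀ hp₀ => localCauchy hG hΩ hw hb hu hp₀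
  have hlimU : ∀ p ∈ Ω, Tendsto (fun n => w n p) atTop (𝓝 (U p)) := by
    intro p hp
    obtain ⟨r, hr, _, h1, _⟩ := hloc p hp
    exact (h1.cauchySeq (Metric.mem_ball_self hr)).tendsto_limUnder
  have hlimU' : ∀ p ∈ Ω, Tendsto (fun n => fderiv ℝ (w n) p) atTop (𝓝 (U' p)) := by
    intro p hp
    obtain ⟨r, hr, _, _, h1⟩ := hloc p hp
    exact (h1.cauchySeq (Metric.mem_ball_self hr)).tendsto_limUnder
  refine ⟨U, ?_, ?_⟩
  · intro p₀ hp₀
    obtain ⟨r, hr, hrΩ, h1, h2⟩ := hloc p₀ hp₀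
    have t1 : TendstoUniformlyOn w U atTop (Metric.ball p₀ r) :=
      h1.tendstoUniformlyOn_of_tendsto fun p hp => hlimU p (hrΩ hp)
    have t2 : TendstoUniformlyOn (fun n => fderiv ℝ (w n)) U' atTop (Metric.ball p₀ r) :=
      h2.tendstoUniformlyOn_of_tendsto fun p hp => hlimU' p (hrΩ hp)
    have hder : ∀ p ∈ Metric.ball p₀ r, HasFDerivAt U (U' p) p := fun p hp =>
      hasFDerivAt_of_tendstoUniformlyOn Metric.isOpen_ball t2
        (fun n x _ => (hwd n x).hasFDerivAt) (fun x hx => hlimU x (hrΩ hx)) hp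
    have hcont : ContinuousOn U' (Metric.ball p₀ r) :=
      t2.continuousOn (Frequently.of_forall fun n => (hwc n).continuousOn)
    have : ContDiffAt ℝ 1 U p₀ := by
      rw [contDiffAt_one_iff]
      exact ⟨U', Metric.ball p₀ r, Metric.ball_mem_nhds p₀ hr, hcont, hder⟩
    exact this.contDiffWithinAt
  · rw [ae_restrict_iff' hΩ.measurableSet] at hu ⊢
    filter_upwards [hu] with p hp hpΩ
    exact tendsto_nhds_unique (hlimU p hpΩ) (hp hpΩ)

end Pool.Agent.W571.RB
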